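import Mathlib
import Pool.Agent.V11256.PP.G

/-!
# Borel type semigroups need not have plain paradoxes

The group is the free group on six generators, acting on a space of labelled six-regular trees. The
class `α` of the whole space satisfies `3 α = 2 α`, while `2 α ≤ α` fails. The second part rests on
Borel determinacy (Martin's theorem), which is proved in `Pool/Agent/V11256/BD`.
-/

namespace Pool.Agent.Results.MP_cafa5e_lc.PlainParadox

open V11256.PP

/-- **Main theorem.** There are a Borel action of a countable group on a standard Borel space and an
element `α` of its Borel type semigroup with `3 α = 2 α` but not `2 α ≤ α`. In particular the type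
semigroup does not have plain paradoxes. -/
theorem result : ∃ (Γ : Type) (_ : Group Γ) (_ : Countable Γ) (Y : Type) (_ : MeasurableSpace Y)
    (_ : StandardBorelSpace Y) (_ : MulAction Γ Y) (_ : MeasurableConstSMul Γ Y),
    (∃ α : TypeSemigroup Γ Y, 3 • α = 2 • α ∧ ¬ ∃ β, α = 2 • α + β) ∧ ¬ PlainParadoxes Γ Y := by
  have hc : Countable (FreeGroup S) :=
    (show Function.Injective (FreeGroup.toWord (α := S)) from FreeGroup.toWord_injective).countable
  refine ⟨FreeGroup S, inferInstance, hc, X, inferInstance, inferInstance, inferInstance,
    inferInstance, ⟨_, three_eq_two, not_two_le_one⟩, ?_⟩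
  intro h
  refine not_two_le_one (h (cls (FreeGroup S) (lev {0})) 3 2 (by norm_num) ⟨0, ?_⟩)
  rw [add_zero, three_eq_two]

end Pool.Agent.Results.MP_cafa5e_lc.PlainParadox
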